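import Pool.Agent.H10.CM.FStmts

set_option autoImplicit false

open Polynomial

namespace Pool.CM.XT

variable {E : Type} [Field E] {X : Idx} (A : PF X E)

theorem exP_monomial (m : ℕ) (a : E) :
    exP E (monomial m a) = HahnSeries.single (m : ℤ) a := by
  ext k
  rcases lt_or_ge k 0 with hk | hk
  · rw [exP_coeff_neg _ _ hk, HahnSeries.coeff_single_of_ne (by omega)]
  · obtain ⟨n, rfl⟩ := Int.eq_ofNat_of_zero_le hk
    rw [exP_coeff_nat, Polynomial.coeff_monomial]
    split_ifs with h
    · rw [h, HahnSeries.coeff_single_same]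
    · rw [HahnSeries.coeff_single_of_ne (by omega)]

/-- coefficient of a product with a polynomial -/
theorem coeff_mul_exP (f : LaurentSeries E) (h : E[X]) (k : ℤ) :
    (f * exP E h).coeff k = ∑ m ∈ h.support, f.coeff (k - m) * h.coeff m := by
  conv_lhs => rw [Polynomial.as_sum_support h]
  rw [map_sum, Finset.mul_sum, HahnSeries.coeff_sum]
  refine Finset.sum_congr rfl fun m _ => ?_
  rw [exP_monomial]
  have h1 := HahnSeries.coeff_mul_single_add (r := h.coeff m) (x := f) (a := k - m) (b := (m : ℤ))
  rw [sub_add_cancel] at h1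
  exact h1

theorem exists_lower (f : LaurentSeries E) : ∃ N : ℤ, ∀ k < N, f.coeff k = 0 := by
  by_cases h : f = 0
  · exact ⟨0, fun k _ => by rw [h, HahnSeries.coeff_zero]⟩
  · exact ⟨f.order, fun k hk => HahnSeries.coeff_eq_zero_of_lt_order hk⟩

theorem main (i : X.I) (n : ℕ) (f : LaurentSeries E) (g h : E[X])
    (e : f * exP E h = exP E g) (hg : ∀ m, g.coeff m ∈ A.O i) (hh : ∀ m, h.coeff m ∈ A.O i)
    (hn : A.Un i (h.coeff n)) (hlow : ∀ m < n, h.coeff m = 0) (k : ℤ) :
    f.coeff k ∈ A.O i ∧ (k < -(n : ℤ) → f.coeff k = 0) := by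
  obtain ⟨N, hN⟩ := exists_lower f
  have key : ∀ j : ℕ, ∀ k : ℤ, k < N + j →
      f.coeff k ∈ A.O i ∧ (k < -(n : ℤ) → f.coeff k = 0) := by
    intro j
    induction j with
    | zero =>
      intro k hk
      rw [hN k (by simpa using hk)]
      exact ⟨(A.O i).zero_mem, fun _ => rfl⟩
    | succ j ih =>
      intro k hk
      have hns : n ∈ h.support := Polynomial.mem_support_iff.2 hn.1
      have h1 := coeff_mul_exP f h (k + n)
      rw [e, ← Finset.add_sum_erase _ _ hns] at h1
      have e1 : k + (n : ℤ) - n = k := by ring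
      rw [e1] at h1
      have hrest : ∀ m ∈ h.support.erase n, k + (n : ℤ) - m < N + j := by
        intro m hm
        have hm1 := Finset.mem_erase.1 hm
        have hm2 : n ≤ m := by
          by_contra hc
          exact (Polynomial.mem_support_iff.1 hm1.2) (hlow m (by omega))
        have hm3 : n < m := lt_of_le_of_ne hm2 (Ne.symm hm1.1)
        push_cast at hk
        omega
      have hgk : (exP E g).coeff (k + n) ∈ A.O i := by
        rcases lt_or_ge (k + (n : ℤ)) 0 with hk0 | hk0
        · rw [exP_coeff_neg _ _ hk0]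
          exact (A.O i).zero_mem
        · obtain ⟨l, hl⟩ := Int.eq_ofNat_of_zero_le hk0
          rw [hl, exP_coeff_nat]
          exact hg l
      constructor
      · have h2 : f.coeff k * h.coeff n ∈ A.O i := by
          have h3 : f.coeff k * h.coeff n = (exP E g).coeff (k + n) -
              ∑ m ∈ h.support.erase n, f.coeff (k + n - m) * h.coeff m := by
            rw [h1]; ring
          rw [h3]
          refine (A.O i).sub_mem hgk ((A.O i).sum_mem fun m hm => ?_)
          exact (A.O i).mul_mem (ih _ (hrest m hm)).1 (hh m)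
        have h4 : f.coeff k = f.coeff k * h.coeff n * (h.coeff n)⁻¹ := by
          rw [mul_assoc, mul_inv_cancel₀ hn.1, mul_one]
        rw [h4]
        exact (A.O i).mul_mem h2 hn.2.2
      · intro hkn
        rw [exP_coeff_neg _ _ (by omega), Finset.sum_eq_zero, add_zero] at h1
        · exact (mul_eq_zero.1 h1.symm).resolve_right hn.1
        · intro m hm
          have hm1 := Finset.mem_erase.1 hm
          have hm2 : n ≤ m := by
            by_contra hc
            exact (Polynomial.mem_support_iff.1 hm1.2) (hlow m (by omega))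
          rw [(ih _ (hrest m hm)).2 (by omega), zero_mul]
  exact key (k - N + 1).toNat k (by omega)

end Pool.CM.XT

namespace Pool.CM

theorem xt (_ : VALUStmt) : XTStmt := by
  rintro X E _ A hA i d x ⟨g, ⟨g', hg', rfl⟩, h, ⟨h', hh', ⟨n, hn, hlow⟩, rfl⟩, e⟩
  have e1 : ex E x * exP E h' = exP E g' := by
    have := congrArg (ex E) e
    rw [map_mul, ex_algebraMap, ex_algebraMap] at this
    exact this
  have hun := hA.den_un i d _ hn
  have hnd : n ≤ d := by
    refine (Polynomial.le_natDegree_of_ne_zero hun.1).trans hh'.1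
  have key := XT.main A i n (ex E x) g' h' e1 (fun m => hA.pol_O i d _ (hg'.2 m))
    (fun m => hA.pol_O i d _ (hh'.2 m)) hun hlow
  exact ⟨fun k => (key k).1, fun k hk => (key k).2 (by omega)⟩

end Pool.CM
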