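import Pool.Agent.H10.CM.FStmts

set_option autoImplicit false

open Polynomial

namespace Pool.CM.POL

variable {E : Type} [Field E] {X : Idx} (A : PF X E)

theorem coeff_phiP (φ : E →+* E) (p : ℕ) (hp : 0 < p) (g : E[X]) (n : ℕ) :
    (phiP φ p g).coeff n = if p ∣ n then φ (g.coeff (n / p)) else 0 := by
  rw [phiP_apply, Polynomial.coeff_expand hp]
  split_ifs with h
  · rw [Polynomial.coeff_map]
  · rfl

theorem int_of_Pd (hA : A.Ax) {i : X.I} {d : ℕ} {g : E[X]} (hg : A.Pd i d g) : A.Int i g :=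
  fun n => hA.pol_O i d _ (hg.2 n)

theorem Pd_mono (hA : A.Ax) {i : X.I} {d e : ℕ} (hde : d ≤ e) {g : E[X]} (hg : A.Pd i d g) :
    A.Pd i e g :=
  ⟨hg.1.trans hde, fun n => hA.pol_mono i d e hde (hg.2 n)⟩

theorem Pd_C {i : X.I} {a : E} (ha : a ∈ A.pol i 0) : A.Pd i 0 (Polynomial.C a) := by
  refine ⟨by simp, fun n => ?_⟩
  rw [Polynomial.coeff_C]
  split_ifs
  · exact ha
  · exact (A.pol i 0).zero_mem

theorem Pd_mul (hA : A.Ax) {i : X.I} {d e : ℕ} {g h : E[X]} (hg : A.Pd i d g)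
    (hh : A.Pd i e h) : A.Pd i (d + e) (g * h) := by
  refine ⟨Polynomial.natDegree_mul_le.trans (add_le_add hg.1 hh.1), fun n => ?_⟩
  rw [Polynomial.coeff_mul]
  exact (A.pol i (d + e)).sum_mem fun x _ => hA.pol_mul i d e _ _ (hg.2 _) (hh.2 _)

theorem Pd_phi (hA : A.Ax) {i : X.I} {d : ℕ} {g : E[X]} (hg : A.Pd i d g) :
    A.Pd i (X.p i * d) (phiP (A.phi i) (X.p i) g) := by
  refine ⟨?_, fun n => ?_⟩
  · rw [phiP_apply, Polynomial.natDegree_expand, mul_comm]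
    exact Nat.mul_le_mul le_rfl (Polynomial.natDegree_map_le.trans hg.1)
  · rw [coeff_phiP _ _ (X.hp i).pos]
    split_ifs
    · exact hA.pol_phi i d _ (hg.2 _)
    · exact (A.pol i _).zero_mem

end Pool.CM.POL

namespace Pool.CM

theorem pol (_ : VALUStmt) (_ : GAUStmt) : POLStmt := by
  intro X E _ A hA
  refine ⟨?_, ?_, ?_, ?_, ?_, ?_⟩
  · rintro i d x ⟨g, hg, rfl⟩
    exact ⟨g, POL.int_of_Pd A hA hg, 1, (A.primS i).one_mem, by rw [map_one, mul_one]⟩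
  · rintro i d e hde x ⟨g, hg, rfl⟩
    exact ⟨g, POL.Pd_mono A hA hde hg, rfl⟩
  · intro i
    refine ⟨Polynomial.C 1, POL.Pd_C A (hA.pol_one i), ?_⟩
    rw [Polynomial.C_1, map_one]
  · intro i n hn
    refine ⟨Polynomial.C ((n : E))⁻¹, POL.Pd_C A (hA.pol_inv i n hn), ?_⟩
    rw [RatFunc.algebraMap_C, map_inv₀, map_natCast]
  · rintro i d e x y ⟨g, hg, rfl⟩ ⟨h, hh, rfl⟩
    exact ⟨g * h, POL.Pd_mul A hA hg hh, by rw [map_mul]⟩
  · rintro i d x ⟨g, hg, rfl⟩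
    refine ⟨phiP (A.phi i) (X.p i) g, POL.Pd_phi A hA hg, ?_⟩
    exact phiR_algebraMap _ _ (X.hp i).pos _

end Pool.CM
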